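import Pool.Agent.W269.BL.Stm

set_option autoImplicit false

open Polynomial

namespace Pool.Agent.W93.BL.PEL

open Pool.Agent.W269.BL

universe u

variable {K : Type u} [Field K]

lemma lam_mul {f g : K[X]} (hf : f ≠ 0) (hg : g ≠ 0) : lam (f * g) = lam f * lam g := by
  have h := UniqueFactorizationMonoid.factors_mul hf hg
  have hc := Multiset.card_eq_card_of_rel h
  rw [Multiset.card_add] at hc
  rw [lam, hc, pow_add]
  rfl

lemma lam_irr {P : K[X]} (hP : Irreducible P) : lam P = -1 := by
  rw [lam, UniqueFactorizationMonoid.card_factors_of_irreducible hP, pow_one]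

lemma lam_one : lam (1 : K[X]) = 1 := by
  rw [lam, UniqueFactorizationMonoid.factors_one]
  simp

lemma rs_mul_deriv {f g : K[X]} (hf : f.Monic) (hg : g.Monic) :
    rs (f * g) (derivative (f * g)) =
      rs f (derivative f) * rs g (derivative g) *
        ((-1) ^ (f.natDegree * g.natDegree) * (rs f g) ^ 2) := by
  have h1 : rs f (derivative (f * g)) = rs f (derivative f) * rs f g := by
    rw [derivative_mul, rs_add_mul hf, rs_mul_right hf]
  have h2 : rs g (derivative (f * g)) = rs g f * rs g (derivative g) := by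
    have : derivative (f * g) = f * derivative g + g * derivative f := by
      rw [derivative_mul]; ring
    rw [this, rs_add_mul hg, rs_mul_right hg]
  have h3 : rs g f = (-1) ^ (f.natDegree * g.natDegree) * rs f g := by
    rw [rs_comm g f, mul_comm g.natDegree]
  rw [rs_mul_left hf hg, h1, h2, h3]
  ring

lemma tri (N M : ℕ) : (N + M) * (N + M - 1) / 2 = N * (N - 1) / 2 + M * (M - 1) / 2 + N * M := by
  rcases Nat.eq_zero_or_pos N with rfl | hN
  · simp
  rcases Nat.eq_zero_or_pos M with rfl | hM
  · simp
  obtain ⟨n, rfl⟩ : ∃ n, N = n + 1 := ⟨N - 1, by omega⟩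
  obtain ⟨m, rfl⟩ : ∃ m, M = m + 1 := ⟨M - 1, by omega⟩
  have e1 : n + 1 - 1 = n := rfl
  have e2 : m + 1 - 1 = m := rfl
  have e3 : n + 1 + (m + 1) - 1 = n + m + 1 := by omega
  rw [e1, e2, e3]
  obtain ⟨a, ha⟩ : 2 ∣ (n + 1) * n := by
    have := Nat.even_mul_succ_self n
    rw [mul_comm] at this
    exact this.two_dvd
  obtain ⟨b, hb⟩ : 2 ∣ (m + 1) * m := by
    have := Nat.even_mul_succ_self m
    rw [mul_comm] at this
    exact this.two_dvd
  have hc : (n + 1 + (m + 1)) * (n + m + 1) = 2 * (a + b + (n + 1) * (m + 1)) := by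
    have h : (n + 1 + (m + 1)) * (n + m + 1) = (n + 1) * n + (m + 1) * m + 2 * ((n + 1) * (m + 1)) := by
      ring
    rw [h, ha, hb]; ring
  rw [hc, ha, hb]
  rw [Nat.mul_div_cancel_left _ (by norm_num), Nat.mul_div_cancel_left _ (by norm_num),
    Nat.mul_div_cancel_left _ (by norm_num)]

theorem main : StmPEL1.{u} → StmPEL.{u} := by
  intro hP1 K _ _ _ h2 f
  -- strong induction on the degree
  induction hn : f.natDegree using Nat.strong_induction_on generalizing f with
  | _ n ih =>
    intro hf hsq
    by_cases h0 : f.natDegree = 0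
    · have hf1 : f = 1 := by
        have := hf.natDegree_eq_zero
        exact this.mp h0
      subst hf1
      rw [← hn, natDegree_one]
      have h3 : derivative (1 : K[X]) = C 0 := by simp
      rw [h3, rs_C, lam_one]
      simp
    · have hnu : ¬ IsUnit f := by
        intro hu
        exact h0 (natDegree_eq_zero_of_isUnit hu)
      obtain ⟨P, hPm, hPi, hPd⟩ := exists_monic_irreducible_factor f hnu
      obtain ⟨g, rfl⟩ := hPd
      have hg : g.Monic := hPm.of_mul_monic_left hf
      have hcop : IsCoprime P g := by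
        rw [hPi.coprime_iff_not_dvd]
        intro hd
        obtain ⟨k, rfl⟩ := hd
        have : P * P ∣ P * (P * k) := ⟨k, by ring⟩
        exact hPi.not_isUnit (hsq P this)
      have hPdeg : 0 < P.natDegree := hPi.natDegree_pos
      have hdeg : (P * g).natDegree = P.natDegree + g.natDegree := hPm.natDegree_mul hg
      have hlt : g.natDegree < n := by omega
      have ihg := ih _ hlt g rfl hg (hsq.of_mul_right)
      have hPP := hP1 K h2 P hPm hPi
      have hne : rs P g ≠ 0 := (rs_ne_zero_iff hPm g).mpr hcop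
      rw [lam_mul hPm.ne_zero hg.ne_zero, lam_irr hPi, ihg, ← hn, hdeg, rs_mul_deriv hPm hg, tri]
      have key : ((-1 : K) ^ (P.natDegree * (P.natDegree - 1) / 2 + g.natDegree * (g.natDegree - 1) / 2
          + P.natDegree * g.natDegree) * (rs P (derivative P) * rs g (derivative g) *
          ((-1) ^ (P.natDegree * g.natDegree) * (rs P g) ^ 2))) =
          ((-1 : K) ^ (P.natDegree * (P.natDegree - 1) / 2) * rs P (derivative P)) *
          ((-1 : K) ^ (g.natDegree * (g.natDegree - 1) / 2) * rs g (derivative g)) * (rs P g) ^ 2 := by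
        have h5 : (-1 : K) ^ (P.natDegree * g.natDegree) * (-1) ^ (P.natDegree * g.natDegree) = 1 := by
          rw [← mul_pow]; simp
        rw [pow_add, pow_add]
        calc _ = ((-1 : K) ^ (P.natDegree * (P.natDegree - 1) / 2) * rs P (derivative P)) *
          ((-1 : K) ^ (g.natDegree * (g.natDegree - 1) / 2) * rs g (derivative g)) * (rs P g) ^ 2 *
            ((-1 : K) ^ (P.natDegree * g.natDegree) * (-1) ^ (P.natDegree * g.natDegree)) := by ring
          _ = _ := by rw [h5, mul_one]
      rw [key]
      rw [map_mul (quadraticChar K) (_ * _) ((rs P g) ^ 2),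
        map_mul (quadraticChar K) ((-1 : K) ^ (P.natDegree * (P.natDegree - 1) / 2) * rs P (derivative P)),
        hPP]
      have hs1 : quadraticChar K ((rs P g) ^ 2) = 1 := quadraticChar_sq_one' hne
      rw [hs1, mul_one]
      have h6 : ((-1 : ℤ)) ^ (P.natDegree + g.natDegree) * ((-1) ^ (P.natDegree + 1) *
          quadraticChar K ((-1) ^ (g.natDegree * (g.natDegree - 1) / 2) * rs g (derivative g))) =
          ((-1 : ℤ) ^ P.natDegree * (-1) ^ P.natDegree) * (-1) * ((-1) ^ g.natDegree *
          quadraticChar K ((-1) ^ (g.natDegree * (g.natDegree - 1) / 2) * rs g (derivative g))) := by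
        ring
      rw [h6]
      have h7 : (-1 : ℤ) ^ P.natDegree * (-1) ^ P.natDegree = 1 := by
        rw [← mul_pow]; simp
      rw [h7]
      ring

end Pool.Agent.W93.BL.PEL
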